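import Pool.Agent.NPX.Stmts

/-!
# Squad NPX, row MAN: the counting (second seat)
-/

set_option autoImplicit false

open MeasureTheory Set Topology Pointwise

namespace Pool.Agent.NPX.H40

open Pool.Agent.LSG

theorem man (hPWR : PwrStmt) (hEXN : ExnStmt) (hFOL : FolStmt) (hAVG : AvgStmt) (hTRI : TriStmt)
    (hGNR : GnrStmt) (hSPB : SpbStmt) (hRPV : RpvStmt) : ManStmt := by
  classical
  intro K _ _ _ _ _ _ _ _ G hG p q hLE
  obtain ⟨T, hT1, hT2⟩ := hLE
  by_contra hcon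
  push Not at hcon
  obtain ⟨-, -, -, hmul, -, -, -, -, -, hUcongr, V, hVne, hVU, hVdist, hVcov⟩ := hPWR K
  obtain ⟨c, hc⟩ := hRPV (G × Fin p) (G × Fin q) (T : C(G × Fin p, ℝ) →ₗ[ℝ] C(G × Fin q, ℝ)) hT1
  obtain ⟨d, hd⟩ := hRPV (G × Fin q) (G × Fin p)
    (T.symm : C(G × Fin q, ℝ) →ₗ[ℝ] C(G × Fin p, ℝ)) hT2
  obtain ⟨S, hSc, hSG, hSk, hSpc, hSpd⟩ := hSPB K G hG p q _ c _ d hc hd
  -- the small number
  have hpq : (p : ℝ) + 1 ≤ q := by exact_mod_cast hcon
  have hp0 : (0 : ℝ) ≤ p := Nat.cast_nonneg p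
  have hden : (0 : ℝ) < p + q + 1 := by linarith
  set ε : ℝ := 1 / (p + q + 1) with hε
  have hε0 : 0 < ε := by positivity
  have hε1 : ε < 1 := by
    rw [hε, div_lt_one hden]
    linarith
  have hεpq : (p : ℝ) * (1 + ε) < q * (1 - ε) := by
    have h1 : ε * (p + q) < 1 := by
      rw [hε, div_mul_eq_mul_div, div_lt_one hden]
      linarith
    nlinarith
  obtain ⟨δ, hδ, hAvg⟩ := hAVG K G hG V hVne hVU ε hε0 hε1
  obtain ⟨H, n, M, hHS, hM, hMδ, hMx⟩ := hEXN K G S hG p q _ c hc hSc hSpc δ hδ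
  obtain ⟨F, F', hFne, hFS, hF'S, hcard, hFol⟩ := hFOL K S V hSk hVU H n ε hHS hε0
  obtain ⟨x, hxG, ⟨hgc, hgd⟩, hcount⟩ := hAvg M F hM hMδ hFne (fun x => Gn c S x ∧ Gn d S x)
    ((hGNR K G p q c S hSc hSpc).and (hGNR K G q p d S hSc hSpd))
  have hli := hTRI K G S p q _ c _ d x hc hd (fun g => T.apply_symm_apply g) hSG hxG hSk
    hSpd.1 hgc hgd
  -- powers in `S`
  have hpowS : ∀ k : ℤ, x ^ k ∈ S → ¬ Inf K k := fun k hk hI => hgc.pow k hI hk
  -- the points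
  set W : Finset (ℤ × K) := (V ×ˢ F).filter (fun w => x ^ w.1 * w.2 ∈ M) with hW
  have hWmem : ∀ w ∈ W, w.1 ∈ V ∧ w.2 ∈ F ∧ x ^ w.1 * w.2 ∈ M := by
    intro w hw
    rw [hW, Finset.mem_filter, Finset.mem_product] at hw
    exact ⟨hw.1.1, hw.1.2, hw.2⟩
  have hWcard : Set.ncard {w : ℤ × K | w.1 ∈ V ∧ w.2 ∈ F ∧ x ^ w.1 * w.2 ∈ M} = W.card := by
    rw [← Set.ncard_coe_finset W]
    congr 1
    ext w
    rw [hW, Finset.coe_filter, Set.mem_ofPred_eq, Set.mem_ofPred_eq, Finset.mem_product, and_assoc]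
  rw [hWcard] at hcount
  have hmemG : ∀ w ∈ W, x ^ w.1 * w.2 ∈ G := by
    intro w hw
    exact G.mul_mem (G.zpow_mem hxG _) (hSG (hFS _ (hWmem w hw).2.1))
  have hmemT : ∀ w ∈ W, x ^ w.1 * w.2 ∈ Tp S x := by
    intro w hw
    exact ⟨w.1, hVU _ (hWmem w hw).1, w.2, hFS _ (hWmem w hw).2.1, rfl⟩
  let e : W × Fin q → {b : G × Fin q // (b.1 : K) ∈ Tp S x} := fun z =>
    ⟨(⟨x ^ z.1.1.1 * z.1.1.2, hmemG _ z.1.2⟩, z.2), hmemT _ z.1.2⟩
  have heinj : Function.Injective e := by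
    rintro ⟨⟨⟨u, s⟩, hw⟩, i⟩ ⟨⟨⟨u', s'⟩, hw'⟩, i'⟩ h
    have h1 := congrArg (fun b => (b.1 : G × Fin q)) h
    have h2 : (⟨x ^ u * s, hmemG _ hw⟩ : G) = ⟨x ^ u' * s', hmemG _ hw'⟩ := congrArg Prod.fst h1
    have h3 : i = i' := congrArg Prod.snd h1
    have h4 : x ^ u * s = x ^ u' * s' := congrArg Subtype.val h2
    have hs : s ∈ S := hFS _ (hWmem _ hw).2.1
    have hs' : s' ∈ S := hFS _ (hWmem _ hw').2.1
    have h5 : x ^ (u - u') = s' * s⁻¹ := by
      rw [zpow_sub, mul_inv_eq_iff_eq_mul, mul_assoc, mul_comm s⁻¹, ← mul_assoc, mul_comm s',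
        ← h4, mul_inv_cancel_right]
    have h6 : ¬ Inf K (u - u') := hpowS _ (by rw [h5]; exact S.mul_mem hs' (S.inv_mem hs))
    have h7 : u = u' := by
      by_contra hne
      exact h6 (hVdist u (hWmem _ hw).1 u' (hWmem _ hw').1 hne)
    subst h7
    have h8 : s = s' := mul_left_cancel h4
    subst h8
    subst h3
    rfl
  have hli2 := hli.comp e heinj
  -- the targets
  let g : ℤ × K × Fin p → G × Fin p := fun z =>
    if h : x ^ z.1 * z.2.1 ∈ G then (⟨x ^ z.1 * z.2.1, h⟩, z.2.2) else (1, z.2.2)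
  set A : Finset (G × Fin p) := (V ×ˢ F' ×ˢ (Finset.univ : Finset (Fin p))).image g with hA
  have hAcard : A.card ≤ V.card * (F'.card * p) := by
    refine Finset.card_image_le.trans ?_
    rw [Finset.card_product, Finset.card_product, Finset.card_univ, Fintype.card_fin]
  have hsupp : ∀ z : W × Fin q, ∀ a : G × Fin p, c (e z).1 a ≠ 0 → (a.1 : K) ∈ Tp S x →
      a ∈ A := by
    rintro ⟨⟨⟨u, s⟩, hw⟩, i⟩ a hca ⟨u', hu', s', hs', ha⟩
    obtain ⟨huV, hsF, hwM⟩ := hWmem _ hw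
    simp only at huV hsF hwM
    obtain ⟨j, hj, hjH⟩ := hMx ⟨x ^ u * s, hmemG _ hw⟩ i a hwM hca
    simp only at hjH
    set h : K := (a.1 : K) * ((x ^ u * s) ^ j)⁻¹ with hh
    have hsS : s ∈ S := hFS _ hsF
    have e1 : (a.1 : K) = x ^ (u * j) * (s ^ j * h) := by
      have e2 : (a.1 : K) = (x ^ u * s) ^ j * h := by
        rw [hh, mul_comm, inv_mul_cancel_right]
      rw [e2, mul_zpow, zpow_mul, mul_assoc]
    have e3 : x ^ (u' - u * j) = s ^ j * h * s'⁻¹ := by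
      rw [zpow_sub, mul_inv_eq_iff_eq_mul, mul_comm (s ^ j * h * s'⁻¹), ← mul_assoc, ← e1, ha,
        mul_inv_cancel_right]
    have e4 : ¬ Inf K (u' - u * j) := hpowS _ (by
      rw [e3]
      exact S.mul_mem (S.mul_mem (S.zpow_mem hsS _) (hHS _ hjH)) (S.inv_mem hs'))
    have e5 : Un K (u * j) := hUcongr u' (u * j) hu' e4
    obtain ⟨v, hvV, hv⟩ := hVcov (u * j) e5
    have e6 := hFol s hsF h hjH u huV v hvV j hj hv x
    have e7 : (a.1 : K) = x ^ v * (s ^ j * h * x ^ (u * j - v)) := by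
      rw [e1, mul_comm (s ^ j * h) (x ^ (u * j - v)), ← mul_assoc (x ^ v), ← zpow_add]
      have e9 : v + (u * j - v) = u * j := by ring
      rw [e9]
    have e8 : x ^ v * (s ^ j * h * x ^ (u * j - v)) ∈ G := by
      rw [← e7]
      exact a.1.2
    rw [hA, Finset.mem_image]
    refine ⟨(v, s ^ j * h * x ^ (u * j - v), a.2), ?_, ?_⟩
    · simp only [Finset.mem_product, Finset.mem_univ, and_true]
      exact ⟨hvV, e6⟩
    · show (if h' : x ^ v * (s ^ j * h * x ^ (u * j - v)) ∈ G then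
        ((⟨x ^ v * (s ^ j * h * x ^ (u * j - v)), h'⟩ : G), a.2) else (1, a.2)) = a
      rw [dif_pos e8]
      ext
      · exact e7.symm
      · rfl
  -- the dimension count
  set B : Finset ((G × Fin p) →₀ ℝ) := A.image (fun a => Finsupp.single a (1 : ℝ)) with hB
  have hspan : Set.range ((fun b : {b : G × Fin q // (b.1 : K) ∈ Tp S x} =>
      (c b.1).filter fun a => (a.1 : K) ∈ Tp S x) ∘ e) ≤
      (Submodule.span ℝ (B : Set ((G × Fin p) →₀ ℝ)) : Set ((G × Fin p) →₀ ℝ)) := by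
    rintro f ⟨z, rfl⟩
    show (c (e z).1).filter (fun a => (a.1 : K) ∈ Tp S x) ∈ Submodule.span ℝ _
    rw [← Finsupp.sum_single ((c (e z).1).filter fun a => (a.1 : K) ∈ Tp S x)]
    refine Submodule.sum_mem _ ?_
    intro a ha
    rw [Finsupp.support_filter, Finset.mem_filter, Finsupp.mem_support_iff] at ha
    have h1 : a ∈ A := hsupp z a ha.1 ha.2
    have h2 : Finsupp.single a (((c (e z).1).filter fun a => (a.1 : K) ∈ Tp S x) a) =
        (((c (e z).1).filter fun a => (a.1 : K) ∈ Tp S x) a) • Finsupp.single a (1 : ℝ) := by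
      rw [Finsupp.smul_single, smul_eq_mul, mul_one]
    show Finsupp.single a (((c (e z).1).filter fun a => (a.1 : K) ∈ Tp S x) a) ∈ _
    rw [h2]
    apply Submodule.smul_mem
    apply Submodule.subset_span
    rw [hB, Finset.mem_coe]
    exact Finset.mem_image_of_mem _ h1
  have hdim := linearIndependent_le_span' _ hli2 (B : Set ((G × Fin p) →₀ ℝ)) hspan
  have hBcard : B.card ≤ V.card * (F'.card * p) := Finset.card_image_le.trans hAcard
  have hdim2 : W.card * q ≤ V.card * (F'.card * p) := by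
    have h1 : Cardinal.mk (W × Fin q) = ((W.card * q : ℕ) : Cardinal) := by
      rw [Cardinal.mk_fintype, Fintype.card_prod, Fintype.card_coe, Fintype.card_fin]
    rw [h1] at hdim
    have h2 : W.card * q ≤ Fintype.card (B : Set ((G × Fin p) →₀ ℝ)) := by exact_mod_cast hdim
    simp only [Finset.coe_sort_coe, Fintype.card_coe] at h2
    exact h2.trans hBcard
  have hVpos : (0 : ℝ) < V.card := by exact_mod_cast hVne.card_pos
  have hFpos : (0 : ℝ) < F.card := by exact_mod_cast hFne.card_pos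
  have hdim3 : (W.card : ℝ) * q ≤ V.card * (F'.card * p) := by exact_mod_cast hdim2
  have hq0 : (0 : ℝ) ≤ q := Nat.cast_nonneg q
  have f1 := mul_le_mul_of_nonneg_right hcount hq0
  have f2 : (V.card : ℝ) * (F'.card * p) ≤ V.card * ((1 + ε) * F.card * p) :=
    mul_le_mul_of_nonneg_left (mul_le_mul_of_nonneg_right hcard hp0) hVpos.le
  have f3 : (1 - ε) * ((V.card : ℝ) * F.card) * q ≤ V.card * ((1 + ε) * F.card * p) :=
    f1.trans (hdim3.trans f2)
  have f4 : 0 < (V.card : ℝ) * F.card := mul_pos hVpos hFpos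
  have f5 : ((V.card : ℝ) * F.card) * (q * (1 - ε)) ≤ ((V.card : ℝ) * F.card) * (p * (1 + ε)) := by
    linarith
  have f6 := le_of_mul_le_mul_left f5 f4
  linarith

end Pool.Agent.NPX.H40
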